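import Pool.Agent.N718.DC.Stm
import Pool.Agent.N718.DC.Stm2

/-! Project DC, part MAINB. -/

set_option autoImplicit false
set_option linter.all false

namespace Pool.Agent.N946.DC

open Finset Pool.Agent.N718.DC

lemma fmv_map {e : ℕ} (c : Fin (e + 2) → ℤ) {K L : Type} [Field K] [Field L] (f : K →+* L)
    (x y : K) : fmv c (f x) (f y) = f (fmv c x y) := by
  unfold fmv fm
  rw [map_sum]
  refine sum_congr rfl fun j _ => ?_
  rw [map_mul, map_mul, map_pow, map_pow, map_intCast]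

lemma PS_map {r : ℕ} {e : Fin r × Fin 3 → ℕ} {c : (k : Fin r × Fin 3) → Fin (e k + 2) → ℤ}
    {K L : Type} [Field K] [Field L] (f : K →+* L) {x y : K} (h : PS c x y) :
    PS c (f x) (f y) := by
  refine ⟨fun k => ?_, fun i => ?_⟩
  · rw [fmv_map]
    exact (map_ne_zero f).2 (h.1 k)
  · obtain ⟨u, v, w, hne, he⟩ := h.2 i
    refine ⟨f u, f v, f w, ?_, ?_⟩
    · rcases hne with h | h | h
      · exact Or.inl ((map_ne_zero f).2 h)
      · exact Or.inr (Or.inl ((map_ne_zero f).2 h))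
      · exact Or.inr (Or.inr ((map_ne_zero f).2 h))
    · rw [fmv_map, fmv_map, fmv_map, ← map_pow, ← map_pow, ← map_pow, ← map_mul, ← map_mul,
        ← map_mul, ← map_add, he]

lemma fm_gamma {R : Type} [CommRing R] (e : ℕ) (c : Fin (e + 2) → R)
    (hc : ∀ j, c j = if j = 0 then 1 else 0) (x y : R) (hx : x = 1) : fm c x y = 1 := by
  unfold fm
  rw [sum_eq_single (0 : Fin (e + 2))]
  · rw [hc]
    simp [hx]
  · intro j _ hj
    rw [hc, if_neg hj]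
    ring
  · intro h
    exact absurd (mem_univ _) h

open Classical in
theorem mainb_ (h1 : S_CLS) (h2 : S_POS) : S_MAINB := by
  intro r e U hU hne
  obtain ⟨z₀, hz₀⟩ := hne
  obtain ⟨ε, hε, hball⟩ := Metric.isOpen_iff.1 hU z₀ hz₀
  set α : ℝ := z₀ - ε / 2 with hα
  set β : ℝ := z₀ + ε / 2 with hβ
  have hαβ : α < β := by linarith
  have hIcc : ∀ z, α < z → z < β → z ∈ U := by
    intro z hz hz'
    apply hball
    rw [Metric.mem_ball, Real.dist_eq, abs_lt]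
    constructor <;> linarith
  obtain ⟨p₀, hp₀, h2'⟩ := h2 (Fin r × Fin 3) e α β hαβ
  obtain ⟨C, hC, h1'⟩ := h1 r e
  obtain ⟨W', hW'⟩ := exists_nat_ge (2 * C / p₀ + 1)
  set W : ℕ := max 2 W' with hWdef
  have hW2 : 2 ≤ W := le_max_left _ _
  have hWC : 2 * C / p₀ + 1 ≤ (W : ℝ) :=
    hW'.trans (by exact_mod_cast le_max_right 2 W')
  set M : ℕ := ∏ p ∈ (Icc 1 W).filter Nat.Prime, p ^ 3 with hM
  have hM0 : 0 < M := prod_pos fun p hp => pow_pos (mem_filter.1 hp).2.pos 3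
  have hM3 : ∀ p : ℕ, p.Prime → p ≤ W → p ^ 3 ∣ M := by
    intro p hp hpW
    exact dvd_prod_of_mem (fun p => p ^ 3) (mem_filter.2 ⟨mem_Icc.2 ⟨hp.one_lt.le, hpW⟩, hp⟩)
  have hMp : ∀ p : ℕ, p.Prime → p ≤ W → p ∣ M := fun p hp hpW =>
    (dvd_pow_self p three_ne_zero).trans (hM3 p hp hpW)
  have hMp' : ∀ p : ℕ, p.Prime → p ∣ M → p ≤ W := by
    intro p hp hpM
    obtain ⟨q, hq, hpq⟩ := (Prime.dvd_finset_prod_iff hp.prime _).1 hpM
    obtain ⟨hq1, hq2⟩ := mem_filter.1 hq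
    have := (Nat.prime_dvd_prime_iff_eq hp hq2).1 (hp.dvd_of_dvd_pow hpq)
    rw [this]
    exact (mem_Icc.1 hq1).2
  set γ : (k : Fin r × Fin 3) → Fin (e k + 2) → ℤ := fun k j => if j = 0 then 1 else 0 with hγ
  have hγ1 : ∀ k, fm (γ k) 1 0 = 1 := fun k => fm_gamma _ _ (fun j => rfl) _ _ rfl
  have hSS : SS (fun _ : Fin r × Fin 3 => (1 : ℤ)) := by
    refine ⟨fun _ => Or.inl rfl, fun i => ⟨?_, ?_⟩⟩
    · rintro ⟨-, -, h⟩
      norm_num at h
    · rintro ⟨h, -, -⟩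
      norm_num at h
  obtain ⟨H₁, hH₁⟩ := h1' W M (by omega) hM0 (hMp 2 Nat.prime_two hW2) hMp hMp' 1 0 α β hαβ γ
    (fun _ => 1) hSS
    (fun p hp hpM => by
      refine ⟨?_, fun k hk => ?_⟩
      · haveI := Fact.mk hp
        exact (padicValNat_dvd_iff_le hM0.ne').1 (hM3 p hp (hMp' p hp hpM))
      · rw [hγ1] at hk
        have h3 : (p : ℤ) ∣ 1 := (dvd_pow_self (p : ℤ) (Nat.succ_ne_zero _)).trans hk
        have h4 : p ∣ 1 := by exact_mod_cast h3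
        exact hp.one_lt.ne' (Nat.dvd_one.1 h4))
    (fun p _ hpM => by
      have hv : ∀ k, fmv (γ k) (((1 : ℤ) : ℚ_[p])) (((0 : ℤ) : ℚ_[p])) = 1 := by
        intro k
        unfold fmv
        refine fm_gamma _ _ (fun j => ?_) _ _ (by simp)
        simp only [hγ]
        split_ifs <;> simp
      refine ⟨fun k => ?_, fun i => ?_⟩
      · rw [hv]
        exact one_ne_zero
      · rw [hv, hv, hv]
        exact ⟨1, 0, 1, Or.inl one_ne_zero, by ring⟩)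
  obtain ⟨H₂, hH₂⟩ := h2' M hM0 γ
  have hMR : (0 : ℝ) < M := by exact_mod_cast hM0
  refine ⟨p₀ / 2 * (1 / (M : ℝ)) ^ ncI e, by positivity, max H₁ H₂, fun H hH => ?_⟩
  have hA := hH₁ H ((le_max_left _ _).trans hH)
  have hB := hH₂ H ((le_max_right _ _).trans hH)
  set A := (BXI e H).filter (fun c => (∀ k j, (M : ℤ) ∣ c k j - γ k j) ∧
      (∀ k, ∀ z : ℝ, α < z → z < β → 0 < (((1 : ℤ)) : ℝ) * fmv (c k) 1 z) ∧
      ¬ ∃ x y : ℤ, 0 < x ∧ (M : ℤ) ∣ x - 1 ∧ (M : ℤ) ∣ y - 0 ∧ α * x < y ∧ (y : ℝ) < β * x ∧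
        PS c (x : ℚ) (y : ℚ)) with hAdef
  set B := (BXI e H).filter (fun c => (∀ k j, (M : ℤ) ∣ c k j - γ k j) ∧
        ∀ k, ∀ z : ℝ, α < z → z < β → 0 < fmv (c k) (1 : ℝ) z) with hBdef
  have hsub : B ⊆ A ∪ (BXI e H).filter (fun c => Loc U c) := by
    intro c hc
    obtain ⟨hcB, hcM, hcp⟩ := mem_filter.1 hc
    rw [mem_union]
    by_cases hex : ∃ x y : ℤ, 0 < x ∧ (M : ℤ) ∣ x - 1 ∧ (M : ℤ) ∣ y - 0 ∧ α * x < y ∧
        (y : ℝ) < β * x ∧ PS c (x : ℚ) (y : ℚ)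
    · right
      obtain ⟨x, y, hx, -, -, hy1, hy2, hPS⟩ := hex
      refine mem_filter.2 ⟨hcB, ?_, ?_⟩
      · have hxR : (0 : ℝ) < x := by exact_mod_cast hx
        have hz1 : α < (y : ℝ) / x := by rwa [lt_div_iff₀ hxR]
        have hz2 : (y : ℝ) / x < β := by rwa [div_lt_iff₀ hxR]
        refine ⟨(y : ℝ) / x, hIcc _ hz1 hz2, fun k => (hcp k _ hz1 hz2).ne', fun i => ?_⟩
        have hA' := hcp (i, 0) _ hz1 hz2
        have hC' := hcp (i, 2) _ hz1 hz2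
        refine ⟨Real.sqrt (fmv (c (i, 2)) 1 ((y : ℝ) / x)), 0,
          Real.sqrt (fmv (c (i, 0)) 1 ((y : ℝ) / x)), Or.inl (Real.sqrt_pos.2 hC').ne', ?_⟩
        rw [Real.sq_sqrt hC'.le, Real.sq_sqrt hA'.le]
        ring
      · intro p
        exact ⟨_, _, PS_map (Rat.castHom ℚ_[(p : ℕ)]) hPS⟩
    · left
      refine mem_filter.2 ⟨hcB, hcM, fun k z hz hz' => ?_, hex⟩
      rw [Int.cast_one, one_mul]
      exact hcp k z hz hz'
  have hcard : (B.card : ℝ) ≤ A.card + ((BXI e H).filter (fun c => Loc U c)).card := by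
    exact_mod_cast (card_le_card hsub).trans (card_union_le _ _)
  have hX : (0 : ℝ) ≤ (((2 * H + 1 : ℕ) : ℝ) / M) ^ ncI e := by positivity
  have hWpos : (0 : ℝ) < W := by exact_mod_cast (by omega : 0 < W)
  have hCW : C / W ≤ p₀ / 2 := by
    rw [div_le_iff₀ hWpos]
    have : 2 * C / p₀ ≤ W := by linarith
    rw [div_le_iff₀ hp₀] at this
    linarith
  have hmul : C / W * (((2 * H + 1 : ℕ) : ℝ) / M) ^ ncI e ≤
      p₀ / 2 * (((2 * H + 1 : ℕ) : ℝ) / M) ^ ncI e := mul_le_mul_of_nonneg_right hCW hX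
  have hfin : p₀ / 2 * (1 / (M : ℝ)) ^ ncI e * ((2 * H + 1 : ℕ) : ℝ) ^ ncI e =
      p₀ / 2 * (((2 * H + 1 : ℕ) : ℝ) / M) ^ ncI e := by
    rw [mul_assoc, ← mul_pow]
    congr 2
    ring
  rw [hfin]
  have hA2 : (A.card : ℝ) ≤ C / W * (((2 * H + 1 : ℕ) : ℝ) / M) ^ ncI e := hA
  linarith

end Pool.Agent.N946.DC
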